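import Mathlib

open Module

namespace Pool.Agent.Results.MP_8b1f5a_an.AllLengths

theorem first_order {ι : Type*} (s : Finset ι) (a : ι → ℝ)
    (h : ∀ t : ℝ, 0 < t → (∀ i ∈ s, 0 < 1 + t * a i) → t ≤ 1 → ∏ i ∈ s, (1 + t * a i) ≤ 1) :
    ∑ i ∈ s, a i ≤ 0 := by
  have hpos : ∀ᶠ t in nhdsWithin (0 : ℝ) (Set.Ioi 0), ∀ i ∈ s, 0 < 1 + t * a i := by
    rw [Filter.eventually_all_finset]
    intro i _
    have hc : Filter.Tendsto (fun t : ℝ => 1 + t * a i) (nhds 0) (nhds (1 + 0 * a i)) := by
      exact (continuous_const.add (continuous_id.mul continuous_const)).tendsto 0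
    rw [zero_mul, add_zero] at hc
    exact (hc.mono_left nhdsWithin_le_nhds).eventually (lt_mem_nhds one_pos)
  have hlt : ∀ᶠ t in nhdsWithin (0 : ℝ) (Set.Ioi 0), t ≤ 1 := by
    have : ∀ᶠ t in nhds (0 : ℝ), t ≤ 1 := by
      filter_upwards [Iio_mem_nhds (one_pos : (0:ℝ) < 1)] with t ht using le_of_lt ht
    exact nhdsWithin_le_nhds this
  have hself : ∀ᶠ t in nhdsWithin (0 : ℝ) (Set.Ioi 0), (0:ℝ) < t := self_mem_nhdsWithin
  have key : ∀ᶠ t in nhdsWithin (0 : ℝ) (Set.Ioi 0), ∑ i ∈ s, a i / (1 + t * a i) ≤ 0 := by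
    filter_upwards [hpos, hlt, hself] with t ht1 ht2 ht3
    have h1 := h t ht3 ht1 ht2
    have h2 : Real.log (∏ i ∈ s, (1 + t * a i)) ≤ 0 :=
      Real.log_nonpos (Finset.prod_nonneg fun i hi => (ht1 i hi).le) h1
    rw [Real.log_prod (fun i hi => (ht1 i hi).ne')] at h2
    have h3 : ∑ i ∈ s, t * (a i / (1 + t * a i)) ≤ ∑ i ∈ s, Real.log (1 + t * a i) := by
      apply Finset.sum_le_sum
      intro i hi
      have h4 := Real.one_sub_inv_le_log_of_pos (ht1 i hi)
      have h5 : t * (a i / (1 + t * a i)) = 1 - (1 + t * a i)⁻¹ := by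
        have := (ht1 i hi).ne'
        field_simp
        ring
      rw [h5]; exact h4
    rw [← Finset.mul_sum] at h3
    have h6 : t * ∑ i ∈ s, a i / (1 + t * a i) ≤ 0 := h3.trans h2
    by_contra hcon
    have hcon' := not_le.mp hcon
    have := mul_pos ht3 hcon'
    linarith
  have hlim : Filter.Tendsto (fun t : ℝ => ∑ i ∈ s, a i / (1 + t * a i))
      (nhdsWithin (0 : ℝ) (Set.Ioi 0)) (nhds (∑ i ∈ s, a i)) := by
    apply tendsto_finsetSum
    intro i _
    have hc : Filter.Tendsto (fun t : ℝ => 1 + t * a i) (nhdsWithin 0 (Set.Ioi 0))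
        (nhds (1 + 0 * a i)) :=
      ((continuous_const.add (continuous_id.mul continuous_const)).tendsto 0).mono_left
        nhdsWithin_le_nhds
    rw [zero_mul, add_zero] at hc
    have := (tendsto_const_nhds (x := a i)).div hc one_ne_zero
    rw [div_one] at this
    exact this
  exact le_of_tendsto hlim key

section

variable {𝕜 : Type*} [RCLike 𝕜] {X : Type*} [NormedAddCommGroup X] [NormedSpace 𝕜 X]

/-- The coordinate of `z` at `j` is the determinant of the basis with the `j`-th vector
replaced by `z`. -/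
theorem det_update_basis {n : ℕ} (B : Basis (Fin n) 𝕜 X) (j : Fin n) (z : X) :
    B.det (Function.update B j z) = B.coord j z := by
  have h : B.det.toMultilinearMap.toLinearMap B j = B.coord j := by
    apply B.ext
    intro k
    rw [MultilinearMap.toLinearMap_apply, Basis.coord_apply, Basis.repr_self]
    by_cases hkj : k = j
    · subst hkj
      simp [Basis.det_self]
    · rw [Finsupp.single_apply, if_neg hkj]
      change B.det (Function.update B j (B k)) = 0
      apply B.det.map_eq_zero_of_eq _ (i := k) (j := j) _ hkj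
      rw [Function.update_of_ne hkj, Function.update_self]
  have h2 := congrArg (fun f => f z) h
  simpa using h2

/-- The functional to be maximised. -/
noncomputable def F {n : ℕ} (b : Basis (Fin n) 𝕜 X) {N : ℕ} (x : Fin N → X) : ℝ :=
  ∏ e : Fin n ↪ Fin N, ‖b.det (fun j => x (e j))‖

theorem F_continuous {n : ℕ} (b : Basis (Fin n) 𝕜 X) {N : ℕ} :
    Continuous (F b : (Fin N → X) → ℝ) := by
  have : FiniteDimensional 𝕜 X := b.finiteDimensional_of_finite
  unfold F
  apply continuous_finsetProd
  intro e _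
  apply Continuous.norm
  simp only [Basis.det_apply]
  apply Continuous.matrix_det
  apply continuous_matrix
  intro i j
  have h1 : Continuous (b.coord i) := LinearMap.continuous_of_finiteDimensional _
  exact h1.comp (continuous_apply (e j))

/-- There is a point of the unit ball where the functional is positive. -/
theorem exists_F_pos {n : ℕ} (b : Basis (Fin n) 𝕜 X) (N : ℕ) :
    ∃ x : Fin N → X, (∀ i, ‖x i‖ ≤ 1) ∧ 0 < F b x := by
  classical
  let v : Fin N → X := fun i => ∑ k : Fin n, ((i : ℕ) : 𝕜) ^ (k : ℕ) • b k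
  let M : ℝ := 1 + ∑ i, ‖v i‖
  have hM : 0 < M := by
    have : 0 ≤ ∑ i, ‖v i‖ := Finset.sum_nonneg fun i _ => norm_nonneg _
    positivity
  refine ⟨fun i => ((M⁻¹ : ℝ) : 𝕜) • v i, ?_, ?_⟩
  · intro i
    rw [norm_smul, RCLike.norm_ofReal, abs_of_pos (inv_pos.mpr hM), inv_mul_le_iff₀ hM, mul_one]
    have : ‖v i‖ ≤ ∑ i, ‖v i‖ :=
      Finset.single_le_sum (f := fun i => ‖v i‖) (fun i _ => norm_nonneg _) (Finset.mem_univ i)
    linarith
  · unfold F
    apply Finset.prod_pos
    intro e _
    rw [norm_pos_iff]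
    have h1 : (fun j => ((M⁻¹ : ℝ) : 𝕜) • v (e j)) = fun j => (fun _ : Fin n => ((M⁻¹ : ℝ) : 𝕜)) j • (fun j => v (e j)) j := rfl
    rw [h1]
    have h2 := b.det.toMultilinearMap.map_smul_univ (fun _ : Fin n => ((M⁻¹ : ℝ) : 𝕜)) (fun j => v (e j))
    change b.det (fun j => (fun _ : Fin n => ((M⁻¹ : ℝ) : 𝕜)) j • (fun j => v (e j)) j) = _ • b.det (fun j => v (e j)) at h2
    rw [h2]
    apply smul_ne_zero
    · rw [Finset.prod_const]
      apply pow_ne_zero
      rw [Ne, RCLike.ofReal_eq_zero]
      exact (inv_pos.mpr hM).ne'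
    · rw [Basis.det_apply]
      have h3 : b.toMatrix (fun j => v (e j)) = (Matrix.vandermonde (fun j : Fin n => ((e j : ℕ) : 𝕜))).transpose := by
        ext i j
        rw [Basis.toMatrix_apply, Matrix.transpose_apply, Matrix.vandermonde_apply]
        simp only [v]
        rw [map_sum, Finsupp.finsetSum_apply]
        simp [Finsupp.single_apply]
      rw [h3, Matrix.det_transpose, Matrix.det_vandermonde_ne_zero_iff]
      intro i j hij
      have : ((e i : ℕ) : 𝕜) = ((e j : ℕ) : 𝕜) := hij
      have := Nat.cast_injective this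
      exact e.injective (Fin.ext this)

/-- The pairs `(e, j)` with `e j = i`. -/
noncomputable def P (n N : ℕ) (i : Fin N) : Finset ((Fin n ↪ Fin N) × Fin n) :=
  Finset.univ.filter fun p => p.1 p.2 = i

theorem card_P_eq (n N : ℕ) (i i' : Fin N) : (P n N i).card = (P n N i').card := by
  apply Finset.card_equiv
    ((Equiv.embeddingCongr (Equiv.refl (Fin n)) (Equiv.swap i i')).prodCongr (Equiv.refl (Fin n)))
  intro p
  simp only [P, Finset.mem_filter, Finset.mem_univ, true_and]
  have h : ((Equiv.embeddingCongr (Equiv.refl (Fin n)) (Equiv.swap i i')).prodCongr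
      (Equiv.refl (Fin n)) p).1 ((Equiv.embeddingCongr (Equiv.refl (Fin n))
      (Equiv.swap i i')).prodCongr (Equiv.refl (Fin n)) p).2 = Equiv.swap i i' (p.1 p.2) := by
    simp
  rw [h]
  constructor
  · intro h2
    rw [h2, Equiv.swap_apply_left]
  · intro h2
    rw [Equiv.swap_apply_eq_iff, Equiv.swap_apply_right] at h2
    exact h2

theorem sum_card_P (n N : ℕ) :
    ∑ i, (P n N i).card = Fintype.card (Fin n ↪ Fin N) * n := by
  have h : (Finset.univ : Finset ((Fin n ↪ Fin N) × Fin n)).card = ∑ i : Fin N,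
      ((Finset.univ : Finset ((Fin n ↪ Fin N) × Fin n)).filter fun p => p.1 p.2 = i).card :=
    Finset.card_eq_sum_card_fiberwise (fun p _ => Finset.mem_coe.mpr (Finset.mem_univ _))
  unfold P
  rw [← h, Finset.card_univ, Fintype.card_prod, Fintype.card_fin]

/-- The effect on `F` of replacing one vector. -/
theorem F_update {n : ℕ} (b : Basis (Fin n) 𝕜 X) {N : ℕ} (x : Fin N → X)
    (B : (Fin n ↪ Fin N) → Basis (Fin n) 𝕜 X) (hB : ∀ e j, B e j = x (e j))
    (i : Fin N) (w : X) :
    F b (Function.update x i w) = F b x * ∏ p ∈ P n N i, ‖(B p.1).coord p.2 w‖ := by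
  have h1 : ∀ e : Fin n ↪ Fin N, ‖b.det (fun j => Function.update x i w (e j))‖
      = ‖b.det (fun j => x (e j))‖ * ∏ j : Fin n, if e j = i then ‖(B e).coord j w‖ else 1 := by
    intro e
    have hBe : (fun j => x (e j)) = (B e : Fin n → X) := by
      funext j; exact (hB e j).symm
    by_cases hi : ∃ j, e j = i
    · obtain ⟨j₀, hj₀⟩ := hi
      have h2 : (fun j => Function.update x i w (e j)) = Function.update (B e) j₀ w := by
        have := Function.update_comp_eq_of_injective x e.injective j₀ w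
        rw [hj₀] at this
        change Function.update x i w ∘ e = _
        rw [this, ← hBe]
        rfl
      rw [h2, hBe]
      have h3 : b.det (Function.update (B e) j₀ w)
          = b.det (B e) * (B e).det (Function.update (B e) j₀ w) := by
        have := AlternatingMap.eq_smul_basis_det (B e) b.det
        conv_lhs => rw [this]
        rw [AlternatingMap.smul_apply, smul_eq_mul]
      rw [h3, norm_mul, det_update_basis]
      congr 1
      rw [Finset.prod_eq_single j₀]
      · rw [if_pos hj₀]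
      · intro j _ hj
        rw [if_neg]
        intro h
        exact hj (e.injective (h.trans hj₀.symm))
      · intro h
        exact absurd (Finset.mem_univ _) h
    · have h2 : (fun j => Function.update x i w (e j)) = fun j => x (e j) := by
        funext j
        rw [Function.update_of_ne]
        intro h
        exact hi ⟨j, h⟩
      rw [h2]
      rw [Finset.prod_eq_one, mul_one]
      intro j _
      rw [if_neg]
      intro h
      exact hi ⟨j, h⟩
  unfold F
  rw [Finset.prod_congr rfl (fun e _ => h1 e), Finset.prod_mul_distrib]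
  congr 1
  rw [P, Finset.prod_filter, ← Finset.univ_product_univ, Finset.prod_product]

end

/-- **Main theorem.** Every nonzero finite-dimensional normed space over the real or the complex
numbers, of dimension `n`, has a finite unit norm tight frame of every length `N ≥ n`:
`(N / n) • Id` is the sum of `N` norm one rank one projections. The proof maximises the product
of the absolute values of all the `n × n` determinants of `N` vectors in the unit ball. -/
theorem result {𝕜 : Type*} [RCLike 𝕜] {X : Type*} [NormedAddCommGroup X] [NormedSpace 𝕜 X]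
    [FiniteDimensional 𝕜 X] (hX : 0 < finrank 𝕜 X) (N : ℕ) (hN : finrank 𝕜 X ≤ N) :
    ∃ (x : Fin N → X) (x' : Fin N → (X →L[𝕜] 𝕜)),
      (∀ i, ‖x i‖ = 1 ∧ ‖x' i‖ = 1 ∧ x' i (x i) = 1) ∧
      ∑ i, (x' i).smulRight (x i) =
        ((N : 𝕜) / (finrank 𝕜 X : 𝕜)) • ContinuousLinearMap.id 𝕜 X := by
  classical
  set n := finrank 𝕜 X with hn
  let b : Basis (Fin n) 𝕜 X := finBasis 𝕜 X
  have : ProperSpace X := FiniteDimensional.proper 𝕜 X
  -- a maximiser
  obtain ⟨x₀, hx₀, hx₀F⟩ := exists_F_pos b N
  obtain ⟨x, hx, hmax⟩ := (isCompact_closedBall (0 : Fin N → X) 1).exists_isMaxOn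
    ⟨0, Metric.mem_closedBall_self zero_le_one⟩ (F_continuous b (N := N)).continuousOn
  have hmem : ∀ z : Fin N → X, z ∈ Metric.closedBall (0 : Fin N → X) 1 ↔ ∀ i, ‖z i‖ ≤ 1 := by
    intro z
    rw [mem_closedBall_zero_iff, pi_norm_le_iff_of_nonneg zero_le_one]
  have hx1 : ∀ i, ‖x i‖ ≤ 1 := (hmem x).mp hx
  have hFx : 0 < F b x := lt_of_lt_of_le hx₀F (hmax ((hmem x₀).mpr hx₀))
  -- all the subfamilies of size `n` are bases
  have hunit : ∀ e : Fin n ↪ Fin N, IsUnit (b.det (fun j => x (e j))) := by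
    intro e
    rw [isUnit_iff_ne_zero]
    intro h0
    have : F b x = 0 := by
      unfold F
      exact Finset.prod_eq_zero (Finset.mem_univ e) (by rw [h0, norm_zero])
    exact hFx.ne' this
  have hbas : ∀ e : Fin n ↪ Fin N, LinearIndependent 𝕜 (fun j => x (e j)) ∧
      Submodule.span 𝕜 (Set.range (fun j => x (e j))) = ⊤ := fun e =>
    (Basis.is_basis_iff_det b).mpr (hunit e)
  let B : (Fin n ↪ Fin N) → Basis (Fin n) 𝕜 X := fun e =>
    Basis.mk (hbas e).1 (hbas e).2.ge
  have hB : ∀ e j, B e j = x (e j) := fun e j => Basis.mk_apply _ _ _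
  -- the common degree
  have hNpos : 0 < N := lt_of_lt_of_le hX hN
  let i₀ : Fin N := ⟨0, hNpos⟩
  let d : ℕ := (P n N i₀).card
  have hd : ∀ i, (P n N i).card = d := fun i => card_P_eq n N i i₀
  let M : ℕ := Fintype.card (Fin n ↪ Fin N)
  have hM : 0 < M := by
    apply Fintype.card_pos_iff.mpr
    exact ⟨(Fin.castLEEmb hN)⟩
  have hNd : N * d = M * n := by
    have h := sum_card_P n N
    rw [Finset.sum_congr rfl (fun i _ => hd i), Finset.sum_const, Finset.card_univ,
      Fintype.card_fin, smul_eq_mul] at h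
    exact h
  have hdpos : 0 < d := by
    rcases Nat.eq_zero_or_pos d with h | h
    · rw [h, mul_zero] at hNd
      have : 0 < M * n := Nat.mul_pos hM hX
      omega
    · exact h
  -- the functionals
  let y : Fin N → (X →ₗ[𝕜] 𝕜) := fun i => ∑ p ∈ P n N i, (B p.1).coord p.2
  have hyx : ∀ i, y i (x i) = (d : 𝕜) := by
    intro i
    simp only [y, LinearMap.sum_apply]
    have : ∀ p ∈ P n N i, (B p.1).coord p.2 (x i) = 1 := by
      intro p hp
      rw [P, Finset.mem_filter] at hp
      rw [← hp.2, ← hB p.1 p.2, Basis.coord_apply, Basis.repr_self, Finsupp.single_eq_same]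
    rw [Finset.sum_congr rfl this, Finset.sum_const, hd i, nsmul_eq_mul, mul_one]
  have hsum : ∀ z : X, ∑ i, y i z • x i = (M : 𝕜) • z := by
    intro z
    have h1 : ∀ i, y i z • x i = ∑ p ∈ P n N i, (B p.1).repr z p.2 • B p.1 p.2 := by
      intro i
      simp only [y, LinearMap.sum_apply, Finset.sum_smul]
      apply Finset.sum_congr rfl
      intro p hp
      rw [P, Finset.mem_filter] at hp
      rw [hB p.1 p.2, hp.2, Basis.coord_apply]
    rw [Finset.sum_congr rfl (fun i _ => h1 i)]
    have h2 : ∑ i, ∑ p ∈ P n N i, (B p.1).repr z p.2 • B p.1 p.2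
        = ∑ p : (Fin n ↪ Fin N) × Fin n, (B p.1).repr z p.2 • B p.1 p.2 := by
      unfold P
      exact Finset.sum_fiberwise (Finset.univ : Finset ((Fin n ↪ Fin N) × Fin n))
        (fun p => p.1 p.2) (fun p => (B p.1).repr z p.2 • B p.1 p.2)
    rw [h2, Fintype.sum_prod_type]
    have h3 : ∀ e : Fin n ↪ Fin N, ∑ j, (B e).repr z j • B e j = z := fun e => (B e).sum_repr z
    rw [Finset.sum_congr rfl (fun e _ => h3 e), Finset.sum_const, Finset.card_univ]
    rw [← Nat.cast_smul_eq_nsmul 𝕜]
  -- first order condition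
  have hre : ∀ i (z : X), ‖z‖ ≤ 1 → RCLike.re (y i z) ≤ d := by
    intro i z hz
    have hfo : ∑ p ∈ P n N i, (RCLike.re ((B p.1).coord p.2 z) - 1) ≤ 0 := by
      apply first_order
      intro t ht hpos ht1
      let w : X := ((1 - t : ℝ) : 𝕜) • x i + ((t : ℝ) : 𝕜) • z
      have hw : ‖w‖ ≤ 1 := by
        calc ‖w‖ ≤ ‖((1 - t : ℝ) : 𝕜) • x i‖ + ‖((t : ℝ) : 𝕜) • z‖ := norm_add_le _ _
          _ = (1 - t) * ‖x i‖ + t * ‖z‖ := by
              rw [norm_smul, norm_smul, RCLike.norm_ofReal, RCLike.norm_ofReal,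
                abs_of_nonneg (by linarith), abs_of_pos ht]
          _ ≤ (1 - t) * 1 + t * 1 :=
              add_le_add (mul_le_mul_of_nonneg_left (hx1 i) (by linarith))
                (mul_le_mul_of_nonneg_left hz ht.le)
          _ = 1 := by ring
      have hupd : F b (Function.update x i w) ≤ F b x := by
        apply hmax
        rw [hmem]
        intro k
        by_cases hk : k = i
        · rw [hk, Function.update_self]; exact hw
        · rw [Function.update_of_ne hk]; exact hx1 k
      rw [F_update b x B hB i w] at hupd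
      have hprod : ∏ p ∈ P n N i, ‖(B p.1).coord p.2 w‖ ≤ 1 := by
        by_contra hcon
        have := mul_lt_mul_of_pos_left (not_le.mp hcon) hFx
        linarith
      refine le_trans ?_ hprod
      apply Finset.prod_le_prod
      · intro p hp
        exact (hpos p hp).le
      · intro p hp
        have hp' := hp
        rw [P, Finset.mem_filter] at hp'
        have h1 : (B p.1).coord p.2 (x i) = 1 := by
          rw [← hp'.2, ← hB p.1 p.2, Basis.coord_apply, Basis.repr_self, Finsupp.single_eq_same]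
        have h2 : (B p.1).coord p.2 w
            = ((1 - t : ℝ) : 𝕜) + ((t : ℝ) : 𝕜) * (B p.1).coord p.2 z := by
          simp only [w]
          rw [map_add, map_smul, map_smul, h1, smul_eq_mul, smul_eq_mul, mul_one]
        rw [h2]
        refine le_trans (le_of_eq ?_) (RCLike.re_le_norm _)
        rw [map_add, RCLike.ofReal_re, RCLike.re_ofReal_mul]
        ring
    rw [Finset.sum_sub_distrib, Finset.sum_const, hd i, nsmul_eq_mul, mul_one] at hfo
    simp only [y, LinearMap.sum_apply, map_sum]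
    linarith
  have hnorm : ∀ i (z : X), ‖z‖ ≤ 1 → ‖y i z‖ ≤ d := by
    intro i z hz
    by_cases h0 : y i z = 0
    · rw [h0, norm_zero]; positivity
    · -- rotate
      let u : 𝕜 := (‖y i z‖ : 𝕜) / y i z
      have hu : ‖u‖ = 1 := by
        simp only [u]
        rw [norm_div, RCLike.norm_ofReal, abs_norm, div_self (norm_ne_zero_iff.mpr h0)]
      have h1 := hre i (u • z) (by rw [norm_smul, hu, one_mul]; exact hz)
      rw [map_smul, smul_eq_mul] at h1
      have h2 : u * y i z = (‖y i z‖ : 𝕜) := by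
        simp only [u]
        rw [div_mul_cancel₀ _ h0]
      rw [h2, RCLike.ofReal_re] at h1
      exact h1
  have hdR : (0 : ℝ) < d := by exact_mod_cast hdpos
  have hd𝕜 : (d : 𝕜) ≠ 0 := by exact_mod_cast hdpos.ne'
  let x' : Fin N → (X →L[𝕜] 𝕜) := fun i => ((d : 𝕜)⁻¹) • LinearMap.toContinuousLinearMap (y i)
  have hx'apply : ∀ i z, x' i z = (d : 𝕜)⁻¹ * y i z := by
    intro i z
    simp [x']
  have hx'x : ∀ i, x' i (x i) = 1 := by
    intro i
    rw [hx'apply, hyx, inv_mul_cancel₀ hd𝕜]
  have hball : ∀ i (z : X), ‖z‖ ≤ 1 → ‖x' i z‖ ≤ 1 := by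
    intro i z hz
    rw [hx'apply, norm_mul, norm_inv, RCLike.norm_natCast, inv_mul_le_iff₀ hdR, mul_one]
    exact hnorm i z hz
  have hx'le : ∀ i, ‖x' i‖ ≤ 1 := by
    intro i
    apply ContinuousLinearMap.opNorm_le_bound _ zero_le_one
    intro z
    rw [one_mul]
    by_cases hz : z = 0
    · rw [hz, map_zero, norm_zero, norm_zero]
    · have hz' : 0 < ‖z‖ := norm_pos_iff.mpr hz
      have h1 := hball i (((‖z‖⁻¹ : ℝ) : 𝕜) • z) (by
        rw [norm_smul, RCLike.norm_ofReal, abs_of_pos (inv_pos.mpr hz'), inv_mul_cancel₀ hz'.ne'])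
      rw [map_smul, norm_smul, RCLike.norm_ofReal, abs_of_pos (inv_pos.mpr hz'),
        inv_mul_le_iff₀ hz', mul_one] at h1
      exact h1
  have hx'norm : ∀ i, ‖x i‖ = 1 ∧ ‖x' i‖ = 1 := by
    intro i
    have h1 : (1 : ℝ) ≤ ‖x' i‖ * ‖x i‖ := by
      have := (x' i).le_opNorm (x i)
      rwa [hx'x, norm_one] at this
    have h2 := hx'le i
    have h3 := hx1 i
    have h4 := norm_nonneg (x i)
    have h5 := norm_nonneg (x' i)
    constructor
    · nlinarith
    · nlinarith
  refine ⟨x, x', fun i => ⟨(hx'norm i).1, (hx'norm i).2, hx'x i⟩, ?_⟩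
  ext z
  rw [sum_apply]
  simp only [ContinuousLinearMap.smulRight_apply, smul_apply,
    ContinuousLinearMap.id_apply]
  have h1 : ∀ i, x' i z • x i = (d : 𝕜)⁻¹ • (y i z • x i) := by
    intro i
    rw [hx'apply, smul_smul]
  rw [Finset.sum_congr rfl (fun i _ => h1 i), ← Finset.smul_sum, hsum, smul_smul]
  congr 1
  have hn𝕜 : (n : 𝕜) ≠ 0 := by exact_mod_cast hX.ne'
  rw [eq_div_iff hn𝕜, mul_assoc, inv_mul_eq_iff_eq_mul₀ hd𝕜]
  have : ((N * d : ℕ) : 𝕜) = ((M * n : ℕ) : 𝕜) := by rw [hNd]
  push_cast at this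
  rw [← this]
  ring

end Pool.Agent.Results.MP_8b1f5a_an.AllLengths
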